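import Mathlib

/-!
# Random graph clique: repeated letters in samples (Lemmas S and NI of the blueprint of helper82)
-/

namespace Pool.Agent.H96.RG

open Finset

variable {ι α : Type} [DecidableEq ι] [DecidableEq α]

set_option linter.unusedSectionVars false

/-- The repeated pairs: the letter of the sample `r` at `p` has occurred before. -/
def repSet (J : Finset ι) {N : ℕ} (ξ : Fin N → ι → α) : Finset (Fin N × ι) :=
  (univ ×ˢ J).filter (fun rp => ∃ r' : Fin N, r' < rp.1 ∧ ξ r' rp.2 = ξ rp.1 rp.2)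

/-- The number of repeated pairs. -/
def rep (J : Finset ι) {N : ℕ} (ξ : Fin N → ι → α) : ℕ := (repSet J ξ).card

/-- The sample `r` is isolated. -/
def Isol (J : Finset ι) {N : ℕ} (ξ : Fin N → ι → α) (r : Fin N) : Prop := ∀ r', r' ≠ r → ∀ p ∈ J, ξ r' p ≠ ξ r p

/-- The positions where the new sample repeats a letter. -/
def newRep (J : Finset ι) {N : ℕ} (ξ : Fin N → ι → α) (y : ι → α) : Finset ι :=
  J.filter (fun p => ∃ r : Fin N, ξ r p = y p)

theorem mem_repSet {J : Finset ι} {N : ℕ} {ξ : Fin N → ι → α} {r : Fin N} {p : ι} :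
    (r, p) ∈ repSet J ξ ↔ p ∈ J ∧ ∃ r' < r, ξ r' p = ξ r p := by
  simp [repSet]

theorem rep_snoc (J : Finset ι) {N : ℕ} (ξ : Fin N → ι → α) (y : ι → α) :
    rep J (Fin.snoc ξ y : Fin (N + 1) → ι → α) = rep J ξ + (newRep J ξ y).card := by
  classical
  have h : repSet J (Fin.snoc ξ y : Fin (N + 1) → ι → α) =
      (repSet J ξ).image (fun rp => (rp.1.castSucc, rp.2)) ∪ (newRep J ξ y).image (fun p => (Fin.last N, p)) := by
    ext ⟨r, p⟩
    rw [mem_repSet]
    simp only [mem_union, mem_image, Prod.mk.injEq, Prod.exists]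
    refine Fin.lastCases ?_ (fun r => ?_) r
    · constructor
      · rintro ⟨hp, r', hr', he⟩
        right
        refine ⟨p, ?_, rfl, rfl⟩
        revert hr' he
        refine Fin.lastCases (fun h => absurd h (lt_irrefl _)) (fun r' _ he => ?_) r'
        simp only [Fin.snoc_castSucc, Fin.snoc_last] at he
        simp only [newRep, mem_filter]
        exact ⟨hp, r', he⟩
      · rintro (⟨r', p', h1, h2, h3⟩ | ⟨p', h1, h2, h3⟩)
        · exact absurd h2 (Fin.castSucc_lt_last r').ne
        · subst h3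
          simp only [newRep, mem_filter] at h1
          obtain ⟨hp, r', he⟩ := h1
          exact ⟨hp, r'.castSucc, Fin.castSucc_lt_last _, by simpa using he⟩
    · constructor
      · rintro ⟨hp, r', hr', he⟩
        left
        refine ⟨r, p, ?_, rfl, rfl⟩
        rw [mem_repSet]
        refine ⟨hp, ?_⟩
        revert hr' he
        refine Fin.lastCases (fun h => ?_) (fun r' h he => ?_) r'
        · exact absurd h (Fin.castSucc_lt_last r).not_gt
        · simp only [Fin.snoc_castSucc] at he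
          exact ⟨r', Fin.castSucc_lt_castSucc_iff.1 h, he⟩
      · rintro (⟨r', p', h1, h2, h3⟩ | ⟨p', h1, h2, h3⟩)
        · subst h3
          have : r' = r := Fin.castSucc_injective _ h2
          subst this
          rw [mem_repSet] at h1
          obtain ⟨hp, r'', hr'', he⟩ := h1
          exact ⟨hp, r''.castSucc, Fin.castSucc_lt_castSucc_iff.2 hr'', by simpa using he⟩
        · exact absurd h2.symm (Fin.castSucc_lt_last r).ne
  unfold rep
  rw [h, card_union_of_disjoint, card_image_of_injective, card_image_of_injective]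
  · intro p p' hpp
    simpa using hpp
  · rintro ⟨r, p⟩ ⟨r', p'⟩ hpp
    simp only [Prod.mk.injEq] at hpp
    rw [Fin.castSucc_injective _ hpp.1, hpp.2]
  · rw [Finset.disjoint_left]
    rintro ⟨r, p⟩ h1 h2
    simp only [mem_image, Prod.mk.injEq, Prod.exists] at h1 h2
    obtain ⟨r', p', -, h3, -⟩ := h1
    obtain ⟨p'', -, h4, -⟩ := h2
    rw [← h4] at h3
    exact absurd h3 (Fin.castSucc_lt_last r').ne

/-- The spread condition. -/
def Spr (Q : ℝ) (J : Finset ι) (X : Finset (ι → α)) : Prop :=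
  ∀ J' ⊆ J, ∀ c : ι → α, Q ^ J'.card * ((X.filter (fun ξ => ∀ p ∈ J', ξ p = c p)).card : ℝ) ≤ X.card

theorem card_newRep_sup {Q : ℝ} {J : Finset ι} {X : Finset (ι → α)} (hQ : 0 < Q) (hX : Spr Q J X) {N : ℕ}
    (ξ : Fin N → ι → α) {E : Finset ι} (hE : E ⊆ J) :
    ((X.filter (fun y => E ⊆ newRep J ξ y)).card : ℝ) ≤ (N / Q) ^ E.card * X.card := by
  classical
  rcases X.eq_empty_or_nonempty with rfl | ⟨y₀, -⟩
  · simp
  have h1 : X.filter (fun y => E ⊆ newRep J ξ y) ⊆
      (E.pi (fun _ => (univ : Finset (Fin N)))).biUnion (fun ρ =>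
        X.filter (fun y => ∀ p ∈ E, y p = (if h : p ∈ E then ξ (ρ p h) p else y₀ p))) := by
    intro y hy
    rw [mem_filter] at hy
    rw [mem_biUnion]
    have hc : ∀ p (h : p ∈ E), ∃ r : Fin N, ξ r p = y p := fun p h => by
      have := hy.2 h
      simp only [newRep, mem_filter] at this
      exact this.2
    choose ρ hρ using hc
    refine ⟨ρ, by simp, mem_filter.2 ⟨hy.1, fun p hp => ?_⟩⟩
    rw [dif_pos hp]
    exact (hρ p hp).symm
  have h2 : ((X.filter (fun y => E ⊆ newRep J ξ y)).card : ℝ) ≤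
      ∑ ρ ∈ E.pi (fun _ => (univ : Finset (Fin N))), (X.card : ℝ) / Q ^ E.card := by
    calc ((X.filter (fun y => E ⊆ newRep J ξ y)).card : ℝ) ≤ ∑ ρ ∈ E.pi (fun _ => (univ : Finset (Fin N))),
          ((X.filter (fun y => ∀ p ∈ E, y p = (if h : p ∈ E then ξ (ρ p h) p else y₀ p))).card : ℝ) := by
          exact_mod_cast (card_le_card h1).trans card_biUnion_le
      _ ≤ _ := by
        refine sum_le_sum fun ρ _ => ?_
        rw [le_div_iff₀ (by positivity), mul_comm]
        exact hX E hE _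
  refine h2.trans (le_of_eq ?_)
  rw [sum_const, card_pi, nsmul_eq_mul]
  simp only [card_univ, Fintype.card_fin, prod_const]
  push_cast
  rw [div_pow]
  ring

/-- One new sample. -/
theorem sum_newRep_le {Q x : ℝ} {J : Finset ι} {X Y : Finset (ι → α)} (hQ : 0 < Q) (hx : 1 ≤ x) (hX : Spr Q J X) (hY : Y ⊆ X)
    {N : ℕ} {n : ℕ} (hn : n ≤ N) (hN : N * x ≤ Q) (ξ : Fin n → ι → α) :
    ∑ y ∈ Y, x ^ (newRep J ξ y).card ≤ Y.card + X.card * (2 ^ J.card * (N * x / Q)) := by
  classical
  have hx0 : 0 ≤ x := by linarith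
  have hu0 : 0 ≤ (N : ℝ) * x / Q := by positivity
  have hu1 : (N : ℝ) * x / Q ≤ 1 := by rwa [div_le_one hQ]
  have h1 : ∀ y ∈ Y, x ^ (newRep J ξ y).card ≤ 1 + ∑ E ∈ J.powerset.filter (fun E => E.Nonempty),
      (if E ⊆ newRep J ξ y then x ^ E.card else 0) := by
    intro y _
    rcases (newRep J ξ y).eq_empty_or_nonempty with h | h
    · rw [h]
      simp only [card_empty, pow_zero, le_add_iff_nonneg_right]
      exact sum_nonneg fun E _ => by split_ifs <;> positivity
    · have : x ^ (newRep J ξ y).card ≤ ∑ E ∈ J.powerset.filter (fun E => E.Nonempty),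
          (if E ⊆ newRep J ξ y then x ^ E.card else 0) := by
        have hm : newRep J ξ y ∈ J.powerset.filter (fun E => E.Nonempty) :=
          mem_filter.2 ⟨mem_powerset.2 (filter_subset _ _), h⟩
        refine le_trans ?_ (single_le_sum (fun E _ => by split_ifs <;> positivity) hm)
        simp
      linarith
  calc ∑ y ∈ Y, x ^ (newRep J ξ y).card ≤ ∑ y ∈ Y, (1 + ∑ E ∈ J.powerset.filter (fun E => E.Nonempty),
        (if E ⊆ newRep J ξ y then x ^ E.card else 0)) := sum_le_sum h1
    _ = Y.card + ∑ E ∈ J.powerset.filter (fun E => E.Nonempty),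
        x ^ E.card * ((Y.filter (fun y => E ⊆ newRep J ξ y)).card : ℝ) := by
      rw [sum_add_distrib, sum_comm]
      congr 1
      · simp
      · refine sum_congr rfl fun E _ => ?_
        rw [← sum_filter, sum_const, nsmul_eq_mul, mul_comm]
    _ ≤ Y.card + ∑ E ∈ J.powerset.filter (fun E => E.Nonempty), X.card * (N * x / Q) := by
      refine add_le_add le_rfl (sum_le_sum fun E hE => ?_)
      rw [mem_filter, mem_powerset] at hE
      have e1 : ((Y.filter (fun y => E ⊆ newRep J ξ y)).card : ℝ) ≤ (n / Q) ^ E.card * X.card :=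
        le_trans (by exact_mod_cast card_le_card (filter_subset_filter _ hY)) (card_newRep_sup hQ hX ξ hE.1)
      calc x ^ E.card * ((Y.filter (fun y => E ⊆ newRep J ξ y)).card : ℝ) ≤ x ^ E.card * ((n / Q) ^ E.card * X.card) := by
            gcongr
        _ = X.card * (n * x / Q) ^ E.card := by rw [div_pow, div_pow, mul_pow]; ring
        _ ≤ X.card * (N * x / Q) ^ E.card := by gcongr
        _ ≤ X.card * (N * x / Q) := by
            refine mul_le_mul_of_nonneg_left ?_ (by positivity)
            calc (N * x / Q) ^ E.card ≤ (N * x / Q) ^ 1 := pow_le_pow_of_le_one hu0 hu1 hE.2.card_pos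
              _ = _ := pow_one _
    _ ≤ Y.card + X.card * (2 ^ J.card * (N * x / Q)) := by
      rw [sum_const, nsmul_eq_mul]
      have : ((J.powerset.filter (fun E => E.Nonempty)).card : ℝ) ≤ 2 ^ J.card := by
        have := card_filter_le J.powerset (fun E => E.Nonempty)
        rw [card_powerset] at this
        exact_mod_cast this
      have h0 : 0 ≤ (X.card : ℝ) * (N * x / Q) := by positivity
      nlinarith

/-- Lemma S. -/
theorem sum_pow_rep {Q x : ℝ} {J : Finset ι} {X Y : Finset (ι → α)} (hQ : 0 < Q) (hx : 1 ≤ x) (hX : Spr Q J X) (hY : Y ⊆ X)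
    {N : ℕ} (hN : N * x ≤ Q) : ∀ n ≤ N,
    ∑ ξ ∈ Fintype.piFinset (fun _ : Fin n => Y), x ^ rep J ξ ≤ (Y.card + X.card * (2 ^ J.card * (N * x / Q))) ^ n := by
  classical
  have hx0 : 0 ≤ x := by linarith
  intro n
  induction n with
  | zero =>
    intro _
    simp [rep, repSet]
  | succ n ih =>
    intro hn
    have h0 : (0 : ℝ) ≤ Y.card + X.card * (2 ^ J.card * (N * x / Q)) := by positivity
    have hbij : ∑ ξ ∈ Fintype.piFinset (fun _ : Fin (n + 1) => Y), x ^ rep J ξ =
        ∑ ξ ∈ Fintype.piFinset (fun _ : Fin n => Y), ∑ y ∈ Y, x ^ rep J (Fin.snoc ξ y : Fin (n + 1) → ι → α) := by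
      rw [← sum_product']
      refine sum_bij' (fun ξ _ => (Fin.init ξ, ξ (Fin.last n))) (fun p _ => Fin.snoc p.1 p.2) ?_ ?_ ?_ ?_ ?_
      · intro ξ hξ
        rw [Fintype.mem_piFinset] at hξ
        rw [mem_product, Fintype.mem_piFinset]
        exact ⟨fun i => hξ _, hξ _⟩
      · rintro ⟨ξ, y⟩ hp
        rw [mem_product, Fintype.mem_piFinset] at hp
        rw [Fintype.mem_piFinset]
        intro i
        refine Fin.lastCases ?_ (fun i => ?_) i
        · simpa using hp.2
        · simpa using hp.1 i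
      · intro ξ _
        exact Fin.snoc_init_self ξ
      · rintro ⟨ξ, y⟩ _
        simp
      · intro ξ _
        rw [Fin.snoc_init_self]
    rw [hbij]
    calc ∑ ξ ∈ Fintype.piFinset (fun _ : Fin n => Y), ∑ y ∈ Y, x ^ rep J (Fin.snoc ξ y : Fin (n + 1) → ι → α)
        = ∑ ξ ∈ Fintype.piFinset (fun _ : Fin n => Y), x ^ rep J ξ * ∑ y ∈ Y, x ^ (newRep J ξ y).card := by
          refine sum_congr rfl fun ξ _ => ?_
          rw [mul_sum]
          exact sum_congr rfl fun y _ => by rw [rep_snoc, pow_add]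
      _ ≤ ∑ ξ ∈ Fintype.piFinset (fun _ : Fin n => Y), x ^ rep J ξ * (Y.card + X.card * (2 ^ J.card * (N * x / Q))) := by
          refine sum_le_sum fun ξ _ => mul_le_mul_of_nonneg_left ?_ (by positivity)
          exact sum_newRep_le hQ hx hX hY (by omega) hN ξ
      _ = (∑ ξ ∈ Fintype.piFinset (fun _ : Fin n => Y), x ^ rep J ξ) * (Y.card + X.card * (2 ^ J.card * (N * x / Q))) := by
          rw [sum_mul]
      _ ≤ (Y.card + X.card * (2 ^ J.card * (N * x / Q))) ^ n * (Y.card + X.card * (2 ^ J.card * (N * x / Q))) :=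
          mul_le_mul_of_nonneg_right (ih (by omega)) h0
      _ = _ := (pow_succ _ _).symm

/-- Lemma NI. -/
theorem le_two_rep {J : Finset ι} {N : ℕ} (ξ : Fin N → ι → α) (h : ∀ r, ¬ Isol J ξ r) : N ≤ 2 * rep J ξ := by
  classical
  -- samples with a repeated position
  let A : Finset (Fin N) := univ.filter (fun r => ∃ p ∈ J, ∃ r' < r, ξ r' p = ξ r p)
  have hA : A.card ≤ rep J ξ := by
    have : A ⊆ (repSet J ξ).image Prod.fst := by
      intro r hr
      obtain ⟨p, hp, r', hr', he⟩ := (mem_filter.1 hr).2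
      exact mem_image.2 ⟨(r, p), mem_repSet.2 ⟨hp, r', hr', he⟩, rfl⟩
    exact (card_le_card this).trans card_image_le
  have hB : Aᶜ.card ≤ rep J ξ := by
    have hc : ∀ r ∈ Aᶜ, ∃ rp : Fin N × ι, rp ∈ repSet J ξ ∧ ξ rp.1 rp.2 = ξ r rp.2 := by
      intro r hr
      have hn := h r
      simp only [Isol, ne_eq, not_forall, not_not, exists_prop] at hn
      obtain ⟨r', hne, p, hp, he⟩ := hn
      refine ⟨(r', p), mem_repSet.2 ⟨hp, r, ?_, he.symm⟩, he⟩
      rcases lt_trichotomy r r' with hlt | heq | hgt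
      · exact hlt
      · exact absurd heq.symm hne
      · exfalso
        exact (mem_compl.1 hr) (mem_filter.2 ⟨mem_univ _, p, hp, r', hgt, he⟩)
    rcases isEmpty_or_nonempty (Fin N × ι) with hemp | hnem
    · have : Aᶜ = ∅ := by
        rw [Finset.eq_empty_iff_forall_notMem]
        intro r hr
        obtain ⟨rp, -⟩ := hc r hr
        exact hemp.elim rp
      rw [this]
      simp
    choose! φ hφ hφ2 using hc
    refine card_le_card_of_injOn φ (fun r hr => hφ r hr) ?_
    intro r hr s hs he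
    have h1 := hφ2 r hr
    have h2 := hφ2 s hs
    rw [he] at h1
    have h3 : ξ r (φ s).2 = ξ s (φ s).2 := h1.symm.trans h2
    have hpJ : (φ s).2 ∈ J := (mem_repSet.1 (hφ s hs)).1
    rcases lt_trichotomy r s with hlt | heq | hgt
    · exact absurd (mem_filter.2 ⟨mem_univ _, _, hpJ, r, hlt, h3⟩) (mem_compl.1 hs)
    · exact heq
    · exact absurd (mem_filter.2 ⟨mem_univ _, _, hpJ, s, hgt, h3.symm⟩) (mem_compl.1 hr)
  have := card_add_card_compl A
  rw [Fintype.card_fin] at this
  omega

/-- The number of different letters of the samples in `B`. -/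
theorem card_letters {J : Finset ι} {N : ℕ} (ξ : Fin N → ι → α) (B : Finset (Fin N)) :
    J.card * B.card ≤ ((B ×ˢ J).image (fun rp => (rp.2, ξ rp.1 rp.2))).card + rep J ξ := by
  classical
  have h1 : (B ×ˢ J) \ repSet J ξ ⊆ B ×ˢ J := sdiff_subset
  have h2 : ((B ×ˢ J) \ repSet J ξ).card ≤ ((B ×ˢ J).image (fun rp => (rp.2, ξ rp.1 rp.2))).card := by
    refine card_le_card_of_injOn (fun rp => (rp.2, ξ rp.1 rp.2)) (fun rp hrp => mem_coe.2 (mem_image_of_mem _ (h1 hrp))) ?_
    rintro ⟨r, p⟩ hrp ⟨s, p'⟩ hsp he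
    rw [mem_coe, mem_sdiff, mem_product] at hrp hsp
    simp only [Prod.mk.injEq] at he
    obtain ⟨rfl, he⟩ := he
    rcases lt_trichotomy r s with hlt | heq | hgt
    · exact absurd (mem_repSet.2 ⟨hsp.1.2, r, hlt, he⟩) hsp.2
    · rw [heq]
    · exact absurd (mem_repSet.2 ⟨hrp.1.2, s, hgt, he.symm⟩) hrp.2
  have h3 : (B ×ˢ J).card ≤ ((B ×ˢ J) \ repSet J ξ).card + rep J ξ := by
    have := le_card_sdiff (repSet J ξ) (B ×ˢ J)
    unfold rep
    omega
  rw [card_product] at h3
  rw [mul_comm]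
  omega

end Pool.Agent.H96.RG
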